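import Pool.Agent.H96.KX.Targets

set_option autoImplicit false

namespace Pool.Agent.H86.KX

open Finset Pool.Agent.H96.KX
open Pool.Agent.H1.LP (Clause viol Relax Loc Sys Agree supp ip kk)

/-- the pinned coordinates -/
def pdDom {Z : Type} {N : ℕ} (τ : Fin N → Option Z) : Finset (Fin N) :=
  univ.filter (fun i => τ i ≠ none)

/-- the pinned values -/
def pdY {p B : ℕ} (τ : Fin B → Option (ZMod p)) (i : Fin B) : ZMod p := (τ i).getD 0

theorem pd_map_sum {ι : Type} {p : ℕ} [NeZero p] (s : Finset ι) (f : ι → ZMod p) :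
    (ZMod.stdAddChar (∑ i ∈ s, f i) : ℂ) = ∏ i ∈ s, ZMod.stdAddChar (f i) := by
  classical
  induction s using Finset.induction_on with
  | empty => simp
  | insert a t ha ih => rw [sum_insert ha, prod_insert ha, AddChar.map_add_eq_mul, ih]

theorem pd_coord {p : ℕ} [Fact p.Prime] (o : Option (ZMod p)) (a : ZMod p) :
    ∑ c : ZMod p, ((fac o c : ℝ) : ℂ) * ZMod.stdAddChar (a * c) =
      if (a ≠ 0 → o ≠ none) then (p : ℂ) * ZMod.stdAddChar (a * o.getD 0) else 0 := by
  classical
  cases o with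
  | none =>
    have h := AddChar.sum_mulShift a (ZMod.isPrimitive_stdAddChar p)
    have h2 : ∑ c : ZMod p, ((fac (none : Option (ZMod p)) c : ℝ) : ℂ) *
        ZMod.stdAddChar (a * c) = ∑ x : ZMod p, ZMod.stdAddChar (x * a) := by
      refine Finset.sum_congr rfl fun c _ => ?_
      simp [fac, mul_comm]
    rw [h2, h]
    by_cases ha : a = 0
    · simp [ha, ZMod.card]
    · simp [ha]
  | some θ =>
    rw [if_pos (by simp)]
    rw [Finset.sum_eq_single θ]
    · simp [fac, ZMod.card]
    · intro b _ hb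
      simp [fac, hb]
    · simp

theorem pd_char {p B : ℕ} [Fact p.Prime] (τ : Fin B → Option (ZMod p)) (l : Fin B → ZMod p) :
    ∑ z : Fin B → ZMod p, ((jun τ z : ℝ) : ℂ) * ZMod.stdAddChar (ip l z) =
      if supp l ⊆ pdDom τ then (p : ℂ) ^ B * ZMod.stdAddChar (ip l (pdY τ)) else 0 := by
  classical
  have h1 : ∀ z : Fin B → ZMod p, ((jun τ z : ℝ) : ℂ) * ZMod.stdAddChar (ip l z) =
      ∏ i, (((fac (τ i) (z i) : ℝ) : ℂ) * ZMod.stdAddChar (l i * z i)) := by
    intro z
    rw [Finset.prod_mul_distrib, ip, pd_map_sum, jun, Complex.ofReal_prod]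
  rw [Finset.sum_congr rfl fun z _ => h1 z]
  have h2 := Finset.prod_univ_sum (fun _ : Fin B => (univ : Finset (ZMod p)))
    (fun i c => (((fac (τ i) c : ℝ) : ℂ) * ZMod.stdAddChar (l i * c)))
  rw [Fintype.piFinset_univ] at h2
  rw [← h2, Finset.prod_congr rfl fun i _ => pd_coord (τ i) (l i)]
  by_cases hs : supp l ⊆ pdDom τ
  · rw [if_pos hs]
    have h3 : ∀ i, (if (l i ≠ 0 → τ i ≠ none) then
        (p : ℂ) * ZMod.stdAddChar (l i * (τ i).getD 0) else 0) =
        (p : ℂ) * ZMod.stdAddChar (l i * pdY τ i) := by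
      intro i
      rw [if_pos]
      · rfl
      · intro hi
        have h4 : i ∈ supp l := by simp [supp, hi]
        have h5 := hs h4
        simpa [pdDom] using h5
    rw [Finset.prod_congr rfl fun i _ => h3 i, Finset.prod_mul_distrib, ip,
      pd_map_sum]
    simp
  · rw [if_neg hs]
    obtain ⟨i, hi, hi2⟩ := Finset.not_subset.1 hs
    refine Finset.prod_eq_zero (Finset.mem_univ i) ?_
    rw [if_neg]
    intro hc
    apply hi2
    have h4 : l i ≠ 0 := by simpa [supp] using hi
    simpa [pdDom] using hc h4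

theorem supp_add {p B : ℕ} (l l' : Fin B → ZMod p) : supp (l + l') ⊆ supp l ∪ supp l' := by
  intro i hi
  simp only [supp, mem_filter, mem_univ, true_and, mem_union, Pi.add_apply] at hi ⊢
  by_contra hc
  push Not at hc
  exact hi (by rw [hc.1, hc.2, add_zero])

theorem supp_neg {p B : ℕ} (l : Fin B → ZMod p) : supp (-l) = supp l := by
  ext i
  simp [supp]

/-- the forms inside the pinned coordinates -/
noncomputable def pdG {p B d : ℕ} (S : Loc p B d) (D : Finset (Fin B)) :
    Finset (Fin B → ZMod p) := by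
  classical exact S.La.filter (fun l => supp l ⊆ D)

theorem mem_pdG {p B d : ℕ} (S : Loc p B d) (D : Finset (Fin B)) (l : Fin B → ZMod p) :
    l ∈ pdG S D ↔ l ∈ S.La ∧ supp l ⊆ D := by
  classical
  simp [pdG]

theorem pdG_add {p B d : ℕ} (S : Loc p B d) (D : Finset (Fin B)) (hD : D.card ≤ d)
    {l l' : Fin B → ZMod p} (h : l ∈ pdG S D) (h' : l' ∈ pdG S D) :
    l + l' ∈ pdG S D ∧ S.ga (l + l') = S.ga l + S.ga l' := by
  rw [mem_pdG] at h h'
  have hs : supp (l + l') ⊆ D :=
    (supp_add l l').trans (Finset.union_subset h.2 h'.2)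
  have hc : (supp (l + l')).card ≤ d := (Finset.card_le_card hs).trans hD
  refine ⟨(mem_pdG S D _).2 ⟨S.add_mem l h.1 l' h'.1 hc, hs⟩, S.add_ga l h.1 l' h'.1 hc⟩

theorem pdG_neg {p B d : ℕ} (S : Loc p B d) (D : Finset (Fin B))
    {l : Fin B → ZMod p} (h : l ∈ pdG S D) : -l ∈ pdG S D := by
  rw [mem_pdG] at h ⊢
  exact ⟨S.neg_mem l h.1, by rw [supp_neg]; exact h.2⟩

theorem ip_add {p B : ℕ} (l l' z : Fin B → ZMod p) : ip (l + l') z = ip l z + ip l' z := by
  simp only [ip, Pi.add_apply, add_mul, Finset.sum_add_distrib]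

/-- the character -/
noncomputable def pdChi {p B d : ℕ} [NeZero p] (S : Loc p B d) (y l : Fin B → ZMod p) : ℂ :=
  ZMod.stdAddChar (ip l y - S.ga l)

theorem pdG_zero {p B d : ℕ} [Fact p.Prime] (S : Loc p B d) (D : Finset (Fin B))
    (hD : D.card ≤ d) (y l0 : Fin B → ZMod p) (h0 : l0 ∈ pdG S D) (hne : pdChi S y l0 ≠ 1) :
    ∑ l ∈ pdG S D, pdChi S y l = 0 := by
  have h1 : ∑ l ∈ pdG S D, pdChi S y l = ∑ l ∈ pdG S D, pdChi S y (l + l0) := by
    symm
    refine Finset.sum_nbij' (fun l => l + l0) (fun l => l + -l0) ?_ ?_ ?_ ?_ ?_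
    · intro l hl
      exact (pdG_add S D hD hl h0).1
    · intro l hl
      exact (pdG_add S D hD hl (pdG_neg S D h0)).1
    · intro l _
      simp
    · intro l _
      simp
    · intro l _
      rfl
  have h2 : ∑ l ∈ pdG S D, pdChi S y (l + l0) = (∑ l ∈ pdG S D, pdChi S y l) * pdChi S y l0 := by
    rw [Finset.sum_mul]
    refine Finset.sum_congr rfl fun l hl => ?_
    rw [pdChi, pdChi, pdChi, ← AddChar.map_add_eq_mul, (pdG_add S D hD hl h0).2, ip_add]
    congr 1
    ring
  have h3 : (∑ l ∈ pdG S D, pdChi S y l) * (1 - pdChi S y l0) = 0 := by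
    rw [mul_sub, mul_one, ← h2, ← h1, sub_self]
  rcases mul_eq_zero.1 h3 with h | h
  · exact h
  · exact absurd (sub_eq_zero.1 h).symm hne

theorem pd_main {p B d : ℕ} [Fact p.Prime] (S : Loc p B d) (τ : Fin B → Option (ZMod p)) :
    ∑ z, jun τ z * PDz S z =
      (p : ℝ) ^ B * (∑ l ∈ pdG S (pdDom τ), pdChi S (pdY τ) l).re := by
  classical
  have h1 : ∀ z : Fin B → ZMod p, jun τ z * PDz S z =
      (∑ l ∈ S.La, ZMod.stdAddChar (-S.ga l) *
        (((jun τ z : ℝ) : ℂ) * ZMod.stdAddChar (ip l z))).re := by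
    intro z
    rw [PDz, Complex.re_sum, Finset.mul_sum]
    refine Finset.sum_congr rfl fun l _ => ?_
    have h2 : ZMod.stdAddChar (-S.ga l) * (((jun τ z : ℝ) : ℂ) * ZMod.stdAddChar (ip l z)) =
        ((jun τ z : ℝ) : ℂ) * ZMod.stdAddChar (ip l z - S.ga l) := by
      rw [sub_eq_add_neg, AddChar.map_add_eq_mul]
      ring
    rw [h2, Complex.re_ofReal_mul]
  rw [Finset.sum_congr rfl fun z _ => h1 z, ← Complex.re_sum, Finset.sum_comm]
  have h3 : ∀ l ∈ S.La, ∑ z : Fin B → ZMod p, ZMod.stdAddChar (-S.ga l) *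
      (((jun τ z : ℝ) : ℂ) * ZMod.stdAddChar (ip l z)) =
      if supp l ⊆ pdDom τ then (p : ℂ) ^ B * pdChi S (pdY τ) l else 0 := by
    intro l _
    rw [← Finset.mul_sum, pd_char]
    by_cases hs : supp l ⊆ pdDom τ
    · rw [if_pos hs, if_pos hs, pdChi, sub_eq_add_neg, AddChar.map_add_eq_mul]
      ring
    · rw [if_neg hs, if_neg hs, mul_zero]
  rw [Finset.sum_congr rfl h3, ← Finset.sum_filter, ← Finset.mul_sum]
  have h4 : ((p : ℂ) ^ B) = (((p : ℝ) ^ B : ℝ) : ℂ) := by push_cast; rfl
  rw [h4, Complex.re_ofReal_mul]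
  rfl

theorem pf_PDP : S_PDP := by
  classical
  intro p B d hp S τ hd
  have hD : (pdDom τ).card ≤ d := hd
  refine ⟨?_, ?_⟩
  · rw [pd_main]
    refine mul_nonneg (by positivity) ?_
    by_cases hall : ∀ l ∈ pdG S (pdDom τ), pdChi S (pdY τ) l = 1
    · rw [Finset.sum_congr rfl hall]
      simp
    · push Not at hall
      obtain ⟨l0, h0, hne⟩ := hall
      rw [pdG_zero S (pdDom τ) hD (pdY τ) l0 h0 hne]
      simp
  · intro l hl hz
    have hy : jun τ (pdY τ) ≠ 0 := by
      rw [jun]
      refine Finset.prod_ne_zero_iff.2 fun i _ => ?_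
      cases hτ : τ i with
      | none => simp [fac]
      | some θ =>
        have : pdY τ i = θ := by simp [pdY, hτ]
        rw [this]
        simp [fac, ZMod.card, hp.out.ne_zero]
    have hs : supp l ⊆ pdDom τ := by
      intro i hi
      have hli : l i ≠ 0 := by simpa [supp] using hi
      by_contra hc
      have hτ : τ i = none := by simpa [pdDom] using hc
      set z : Fin B → ZMod p :=
        Function.update (pdY τ) i (pdY τ i + (S.ga l - ip l (pdY τ)) / l i) with hzdef
      have hjz : jun τ z ≠ 0 := by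
        rw [jun]
        refine Finset.prod_ne_zero_iff.2 fun j _ => ?_
        by_cases hj : j = i
        · subst hj
          rw [hτ]
          simp [fac]
        · have hzj : z j = pdY τ j := by simp [hzdef, hj]
          rw [hzj]
          exact Finset.prod_ne_zero_iff.1 hy j (Finset.mem_univ j)
      apply hz z hjz
      have h1 : ip l z = ip l (pdY τ) + l i * ((S.ga l - ip l (pdY τ)) / l i) := by
        have ha : ip l z = l i * z i + ∑ x ∈ univ.erase i, l x * z x :=
          (Finset.add_sum_erase univ (fun j => l j * z j) (Finset.mem_univ i)).symm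
        have hb : ip l (pdY τ) = l i * pdY τ i + ∑ x ∈ univ.erase i, l x * pdY τ x :=
          (Finset.add_sum_erase univ (fun j => l j * pdY τ j) (Finset.mem_univ i)).symm
        have h2 : ∑ x ∈ univ.erase i, l x * z x = ∑ x ∈ univ.erase i, l x * pdY τ x := by
          refine Finset.sum_congr rfl fun j hj => ?_
          have : j ≠ i := (Finset.mem_erase.1 hj).1
          simp [hzdef, this]
        have h3 : z i = pdY τ i + (S.ga l - ip l (pdY τ)) / l i := by simp [hzdef]
        rw [ha, h2, h3, mul_add]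
        linear_combination -hb
      rw [h1, mul_div_cancel₀ _ hli]
      ring
    have h0 : l ∈ pdG S (pdDom τ) := (mem_pdG _ _ _).2 ⟨hl, hs⟩
    have hne : pdChi S (pdY τ) l ≠ 1 := by
      intro hc
      have h5 : ip l (pdY τ) - S.ga l = 0 := by
        apply ZMod.injective_stdAddChar
        rw [AddChar.map_zero_eq_one]
        exact hc
      exact hz (pdY τ) hy (sub_eq_zero.1 h5)
    rw [pd_main, pdG_zero S (pdDom τ) hD (pdY τ) l h0 hne]
    simp

end Pool.Agent.H86.KX
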